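import Pool.Agent.K3h69.OM.Final

/-!
# Automorphism groups of Hermitian and skew-Hermitian octonion matrix algebras
-/

namespace Pool.Agent.Results.MP_93b5ed_al.AutGroups

open K3h69.OS

/-- Over any field `K` of characteristic `≠ 2, 3`:

* for every `n ≥ 1` (skew-Hermitian) and every `n ≥ 4` (Hermitian) the automorphism group is
  `G₂(K) × PGO(n, K)`, where the pair `(g, [A])` acts by `X ↦ A g(X) A⁻¹`;
* the Hermitian algebra has trivial automorphism group for `n = 1`, and the orthogonal group of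
  the `9`-dimensional form `t² + N(x)` for `n = 2`;
* `PGO(n, K) ≅ SO(n, K)` for odd `n`;
* the skew-Hermitian group is isomorphic to `G₂(K) × SO(n, K)` exactly for odd `n`, and the
  Hermitian group (`n ≠ 3`) exactly for odd `n ≥ 5`. -/
theorem result (K : Type*) [Field K] (h2 : (2 : K) ≠ 0) (h3 : (3 : K) ≠ 0) :
    (∀ n : ℕ, 1 ≤ n → ∃ e : G2 K × PGO n K ≃* AutSkew n K, SkewAction e) ∧
    (∀ n : ℕ, 4 ≤ n → ∃ e : G2 K × PGO n K ≃* AutHerm n K, HermAction e) ∧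
    Subsingleton (AutHerm 1 K) ∧
    Nonempty (AutHerm 2 K ≃* O9 K) ∧
    (∀ n : ℕ, Odd n → Nonempty (PGO n K ≃* SO n K)) ∧
    (∀ n : ℕ, 1 ≤ n → (Nonempty (AutSkew n K ≃* G2 K × SO n K) ↔ Odd n)) ∧
    (∀ n : ℕ, 1 ≤ n → n ≠ 3 → (Nonempty (AutHerm n K ≃* G2 K × SO n K) ↔ Odd n ∧ 5 ≤ n)) :=
  ⟨fun _ hn => skew_iso h2 h3 hn, fun _ hn => herm_iso h2 hn, herm_one h2, herm_two h2,
    fun _ hn => odd_iso hn, fun _ hn => skew_SO_iff h2 h3 hn,
    fun _ hn hn3 => herm_SO_iff h2 h3 hn hn3⟩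

end Pool.Agent.Results.MP_93b5ed_al.AutGroups
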